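import Mathlib
import Pool.Agent.R874.TreeNoT2

namespace Pool.Agent.Results.MP_466bd8_al.NoT2Kernel

open Pool.R874.Assoc

/-- Negative answer to Q1: it is not true that every continuous association scheme admits a
scheme on the same spaces, with the same partition map, which has property (T2). -/
theorem result : ¬ ∀ (X D : Type)
    [TopologicalSpace X] [SecondCountableTopology X] [LocallyCompactSpace X] [T2Space X]
    [MeasurableSpace X] [BorelSpace X]
    [TopologicalSpace D] [SecondCountableTopology D] [LocallyCompactSpace D] [T2Space D]
    [MeasurableSpace D] [BorelSpace D]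
    (C : CAS X D), ∃ C' : CAS X D, C'.pi = C.pi ∧ C'.T2 := by
  intro h
  obtain ⟨C', hpi, hT⟩ := h V E SS.toCAS
  exact no_T2 C' hpi hT

end Pool.Agent.Results.MP_466bd8_al.NoT2Kernel
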